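import Pool.Agent.H88.NS.Ideal
import Pool.Agent.H8.NS.AdmUm

/-!
Module M3 of the proof of MP_3ea55a_an, unconditional forms.
-/

set_option autoImplicit false

open MeasureTheory Finset Filter Topology
open scoped BigOperators

namespace Pool.Agent.H63.NS

variable {Y : Type} [MeasurableSpace Y] {ν : Measure Y} [IsProbabilityMeasure ν]

theorem ideal_decay (F : Flow ν) {ι : Type*} [Fintype ι] (L : ι → (ℕ →₀ ℤ)) (f : ι → BM Y)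
    (hf : ∀ j, F.Good (f j)) (l : List ℕ) (hl : l.Nodup) (h0 : 0 ∈ l) (h1 : 1 ∈ l) (c : ℕ)
    (hc : c ∉ l) (hs : ∀ j, ∀ d, d ∉ l → L j d = 0) (ε : ℝ) (hε : 0 < ε) :
    ∃ k0 : ℕ, ∀ k : ℕ, k0 ≤ k → ∀ x : ℝ, ∀ z : ℕ → ℝ,
      |mn (c :: l) (fun z => I ν ((GG F L f z - GG F L f (ad 0 (z c) z)) *
        (GG F L f (gk k x z) - GG F L f (ad 0 (z c) (gk k x z))))) z| ≤ ε :=
  ideal_decay_of (fun _ h l hl z => adm_um F h l hl z) hf hl h0 h1 hc hs ε hε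

theorem ideal_b (F : Flow ν) {ι : Type*} [Fintype ι] (L : ι → (ℕ →₀ ℤ)) (f : ι → BM Y)
    (hf : ∀ j, F.Good (f j)) (l : List ℕ) (hl : l.Nodup) (h1 : 1 ∈ l) (c : ℕ)
    (hc : c ∉ l) (hs : ∀ j, ∀ d, d ∉ l → L j d = 0) :
    ∃ (ρ : ℝ → ℝ) (m : ℝ), (∀ a, |ρ a| ≤ 1) ∧
      (∀ ε : ℝ, 0 < ε → ∃ δ : ℝ, 0 < δ ∧ ∀ a a' : ℝ, |a - a'| ≤ δ → |ρ a - ρ a'| ≤ ε) ∧
      (∀ ε : ℝ, 0 < ε → ∃ L' : ℕ, ∀ k ≥ L', ∀ K ≥ L', ∀ x : ℝ,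
        |av (range (K * 2 ^ k)) (fun i => ρ (x + (i : ℝ) / 2 ^ k)) - m| ≤ ε) ∧
      ∀ (a : ℝ) (z : ℕ → ℝ), mn (c :: l) (fun z => I ν ((GG F L f z - GG F L f (ad 1 (z c) z)) *
        (GG F L f (ad 1 a z) - GG F L f (ad 1 (z c) (ad 1 a z))))) z = 2 * (ρ a - m) :=
  ideal_b_of (fun _ h l hl z => adm_um F h l hl z) hf hl h1 hc hs

end Pool.Agent.H63.NS
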