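import Pool.Agent.H63.NS.Fam
import Pool.Agent.H27.NS.Mn

/-!
Module M3 of the proof of MP_3ea55a_an: decay of the ideal correlations (`ideal_decay_of`) and the
second ideal statement (`ideal_b_of`), from the existence of uniform means of admissible functions.
-/

set_option autoImplicit false

open MeasureTheory Finset Filter Topology
open scoped BigOperators

namespace Pool.Agent.H63.NS

/-! ### dependence on coordinates -/

/-- `φ` depends only on the coordinates in `l` -/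
def On (l : List ℕ) (φ : (ℕ → ℝ) → ℝ) : Prop :=
  ∀ z z' : ℕ → ℝ, (∀ d ∈ l, z d = z' d) → φ z = φ z'

lemma AvL_on {l : List ℕ} {φ : (ℕ → ℝ) → ℝ} (h : On l φ) (k K : ℕ → ℕ) (l' : List ℕ) :
    On l (AvL k K l' φ) := by
  induction l' with
  | nil => exact h
  | cons d l' ih =>
    intro z z' hz
    rw [AvL_cons]
    unfold A1
    refine av_congr (fun i _ => ih _ _ (fun e he => ?_))
    by_cases hed : e = d
    · subst hed
      rw [Function.update_self, Function.update_self, hz e he]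
    · rw [Function.update_of_ne hed, Function.update_of_ne hed, hz e he]

lemma umat_on {l : List ℕ} {φ : (ℕ → ℝ) → ℝ} (h : On l φ) {z z' : ℕ → ℝ} {m : ℝ}
    (hm : UMat l φ z m) : UMat l φ z' m := by
  intro ε hε
  obtain ⟨L, hL⟩ := hm ε hε
  refine ⟨L, fun k K hk hK z'' _ => ?_⟩
  rw [AvL_on h k K l z'' (fun d => if d ∈ l then z'' d else z d) (fun d hd => by simp only [if_pos hd])]
  exact hL k K hk hK _ (fun d hd => by simp only [if_neg hd])

lemma mn_on {l : List ℕ} {φ : (ℕ → ℝ) → ℝ} (h : On l φ) (z z' : ℕ → ℝ) : mn l φ z = mn l φ z' := by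
  by_cases hex : ∃ m : ℝ, UMat l φ z m
  · obtain ⟨m, hm⟩ := hex
    rw [mn_eq hm, mn_eq (umat_on h hm)]
  · have hex' : ¬ ∃ m : ℝ, UMat l φ z' m := by
      rintro ⟨m, hm⟩
      exact hex ⟨m, umat_on h hm⟩
    unfold mn
    rw [dif_neg hex, dif_neg hex']

lemma AvL_congr_at {l : List ℕ} {φ φ' : (ℕ → ℝ) → ℝ} {z : ℕ → ℝ}
    (h : ∀ z', (∀ d, d ∉ l → z' d = z d) → φ z' = φ' z') (k K : ℕ → ℕ) (l' : List ℕ)
    (hl' : ∀ d ∈ l', d ∈ l) :
    ∀ z', (∀ d, d ∉ l → z' d = z d) → AvL k K l' φ z' = AvL k K l' φ' z' := by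
  induction l' with
  | nil => exact h
  | cons d l' ih =>
    intro z' hz
    rw [AvL_cons, AvL_cons]
    unfold A1
    refine av_congr (fun i _ => ih (fun e he => hl' e (List.mem_cons_of_mem _ he)) _ (fun e he => ?_))
    rw [Function.update_of_ne]
    · exact hz e he
    · rintro rfl
      exact he (hl' e List.mem_cons_self)

lemma umat_congr_at {l : List ℕ} {φ φ' : (ℕ → ℝ) → ℝ} {z : ℕ → ℝ} {m : ℝ}
    (h : ∀ z', (∀ d, d ∉ l → z' d = z d) → φ z' = φ' z') (hm : UMat l φ z m) : UMat l φ' z m := by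
  intro ε hε
  obtain ⟨L, hL⟩ := hm ε hε
  refine ⟨L, fun k K hk hK z' hz' => ?_⟩
  rw [← AvL_congr_at h k K l (fun _ hd => hd) z' hz']
  exact hL k K hk hK z' hz'

lemma mn_congr_at {l : List ℕ} {φ φ' : (ℕ → ℝ) → ℝ} {z : ℕ → ℝ}
    (h : ∀ z', (∀ d, d ∉ l → z' d = z d) → φ z' = φ' z') : mn l φ z = mn l φ' z := by
  by_cases hex : ∃ m : ℝ, UMat l φ z m
  · obtain ⟨m, hm⟩ := hex
    rw [mn_eq hm, mn_eq (umat_congr_at h hm)]
  · have hex' : ¬ ∃ m : ℝ, UMat l φ' z m := by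
      rintro ⟨m, hm⟩
      exact hex ⟨m, umat_congr_at (fun z' hz' => (h z' hz').symm) hm⟩
    unfold mn
    rw [dif_neg hex, dif_neg hex']

/-! ### lemmas on `ad` and `gk` -/

lemma ad_zero (d : ℕ) (z : ℕ → ℝ) : ad d 0 z = z := by
  unfold ad; rw [add_zero, Function.update_eq_self]

lemma ad_ad (d : ℕ) (s t : ℝ) (z : ℕ → ℝ) : ad d s (ad d t z) = ad d (s + t) z := by
  unfold ad
  rw [Function.update_self, Function.update_idem, add_assoc, add_comm t s]

lemma ad_self (d : ℕ) (t : ℝ) (z : ℕ → ℝ) : ad d t z d = z d + t := Function.update_self _ _ _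

lemma ad_ne {d e : ℕ} (h : e ≠ d) (t : ℝ) (z : ℕ → ℝ) : ad d t z e = z e :=
  Function.update_of_ne h _ _

lemma ad_comm {d e : ℕ} (h : d ≠ e) (s t : ℝ) (z : ℕ → ℝ) :
    ad d s (ad e t z) = ad e t (ad d s z) := by
  funext i
  by_cases h1 : i = d
  · subst h1
    rw [ad_self, ad_ne h, ad_ne h, ad_self]
  · by_cases h2 : i = e
    · subst h2
      rw [ad_ne h1, ad_self, ad_self, ad_ne h1]
    · rw [ad_ne h1, ad_ne h2, ad_ne h2, ad_ne h1]

lemma gk_eq (k : ℕ) (x : ℝ) (z : ℕ → ℝ) :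
    gk k x z = ad 1 (2 * k * x) (ad 0 (k * z 1 + k ^ 2 * x) z) := by
  unfold gk ad
  rw [Function.update_of_ne one_ne_zero, add_assoc]

lemma gk_ad0 (k : ℕ) (x t : ℝ) (z : ℕ → ℝ) : gk k x (ad 0 t z) = ad 0 t (gk k x z) := by
  rw [gk_eq, gk_eq, ad_ne one_ne_zero, ad_comm zero_ne_one, ad_ad, ad_ad, add_comm t]

lemma gk_ad1 (k : ℕ) (x β : ℝ) (z : ℕ → ℝ) :
    gk k x (ad 1 β z) = ad 1 β (ad 0 (k * β) (gk k x z)) := by
  rw [gk_eq, gk_eq, ad_self, ad_comm (zero_ne_one) (k * β), ad_ad 1, ad_ad 0,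
    ad_comm (zero_ne_one) _ β, ad_ad 1, add_comm β, mul_add]
  congr 2
  ring

lemma gk_of_ne {k : ℕ} {x : ℝ} {z : ℕ → ℝ} {c : ℕ} (h0 : c ≠ 0) (h1 : c ≠ 1) : gk k x z c = z c := by
  rw [gk_eq, ad_ne h1, ad_ne h0]

lemma affI_adc2 (d c : ℕ) (s : ℤ) (t : ℝ) : AffI (fun z => ad d (s * z c + t) z) := affI_adc d c s t

/-! ### averages of products -/

section ideal

variable {Y : Type} [MeasurableSpace Y] {ν : Measure Y} [IsProbabilityMeasure ν]

lemma av_mul_av {ι κ : Type*} (S : Finset ι) (S' : Finset κ) (a : ι → BM Y) (b : κ → BM Y) :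
    av S a * av S' b = av S (fun i => av S' (fun j => a i * b j)) := by
  have h1 := map_av (LinearMap.mulRight ℝ (av S' b)) S a
  simp only [LinearMap.mulRight_apply] at h1
  rw [h1]
  refine av_congr (fun i _ => ?_)
  have h2 := map_av (LinearMap.mulLeft ℝ (a i)) S' b
  simpa only [LinearMap.mulLeft_apply] using h2

lemma I_av_mul_av {ι κ : Type*} (S : Finset ι) (S' : Finset κ) (a : ι → BM Y) (b : κ → BM Y) :
    I ν (av S a * av S' b) = av S (fun i => av S' (fun j => I ν (a i * b j))) := by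
  rw [av_mul_av, map_av]
  exact av_congr (fun i _ => map_av _ _ _)

lemma I_mul_av {κ : Type*} (S' : Finset κ) (a : BM Y) (b : κ → BM Y) :
    I ν (a * av S' b) = av S' (fun j => I ν (a * b j)) := by
  have h2 := map_av (LinearMap.mulLeft ℝ a) S' b
  simp only [LinearMap.mulLeft_apply] at h2
  rw [h2, map_av]

lemma I_sq_av_sub {ι κ : Type*} (S : Finset ι) (S' : Finset κ) (a : ι → BM Y) (b : κ → BM Y) :
    I ν ((av S a - av S' b) ^ 2) = av S (fun i => av S (fun i' => I ν (a i * a i'))) -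
      2 * av S (fun i => av S' (fun j => I ν (a i * b j))) +
      av S' (fun j => av S' (fun j' => I ν (b j * b j'))) := by
  rw [← I_av_mul_av, ← I_av_mul_av, ← I_av_mul_av]
  have e : (av S a - av S' b) ^ 2 =
      av S a * av S a - (2 : ℝ) • (av S a * av S' b) + av S' b * av S' b := by
    rw [two_smul]; ring
  rw [e, map_add, map_sub, map_smul, smul_eq_mul]

/-! ### the correlations -/

variable (F : Flow ν) {ι : Type*} [Fintype ι] (L : ι → (ℕ →₀ ℤ)) (f : ι → BM Y)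

omit [IsProbabilityMeasure ν] in
lemma GG_congr {l : List ℕ} (hs : ∀ j, ∀ d, d ∉ l → L j d = 0) {z z' : ℕ → ℝ}
    (h : ∀ d ∈ l, z d = z' d) : GG F L f z = GG F L f z' := by
  unfold GG
  refine prod_congr rfl (fun j _ => ?_)
  have e : ev (L j) z = ev (L j) z' := by
    unfold ev
    refine Finsupp.sum_congr (fun d hd => ?_)
    have hd' : d ∈ l := by
      by_contra hdl
      exact (Finsupp.mem_support_iff.1 hd) (hs j d hdl)
    rw [h d hd']
  rw [e]

/-- the correlation of `GG` along the coordinate `d` -/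
noncomputable def rho (d : ℕ) (l : List ℕ) (t : ℝ) : ℝ :=
  mn l (fun z => I ν (GG F L f z * GG F L f (ad d t z))) 0

variable {F} {L} {f}

lemma ua_pair (hum : ∀ ψ, Adm F ψ → UA ψ) (hf : ∀ j, F.Good (f j)) {Φ Θ : (ℕ → ℝ) → (ℕ → ℝ)}
    (hΦ : AffI Φ) (hΘ : AffI Θ) : UA (fun z => I ν (GG F L f (Φ z) * GG F L f (Θ z))) :=
  hum _ ((((admG_GG F L f hf).comp hΦ).mul ((admG_GG F L f hf).comp hΘ)).adm)

lemma GG_bdd (hf : ∀ j, F.Good (f j)) (z : ℕ → ℝ) (y : Y) : |(GG F L f z : Y → ℝ) y| ≤ 1 :=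
  (admG_GG F L f hf).bdd z y

lemma abs_I_pair_le (hf : ∀ j, F.Good (f j)) (z z' : ℕ → ℝ) :
    |I ν (GG F L f z * GG F L f z')| ≤ 1 := by
  refine abs_I_le_of_bdd ν (fun y => ?_)
  rw [BM.mul_ap, abs_mul]
  exact mul_le_one₀ (GG_bdd hf z y) (abs_nonneg _) (GG_bdd hf z' y)

lemma rho_eq {l : List ℕ} (hs : ∀ j, ∀ d, d ∉ l → L j d = 0) (d : ℕ) (t : ℝ) (z : ℕ → ℝ) :
    mn l (fun z => I ν (GG F L f z * GG F L f (ad d t z))) z = rho F L f d l t := by
  unfold rho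
  refine mn_on (fun z z' h => ?_) _ _
  rw [GG_congr F L f hs h, GG_congr F L f hs (z := ad d t z) (z' := ad d t z')]
  intro e he
  by_cases hed : e = d
  · subst hed; rw [ad_self, ad_self, h e he]
  · rw [ad_ne hed, ad_ne hed, h e he]

lemma rho_pair (hum : ∀ ψ, Adm F ψ → UA ψ) (hf : ∀ j, F.Good (f j)) {l : List ℕ} (hl : l.Nodup)
    (hs : ∀ j, ∀ d, d ∉ l → L j d = 0) {d : ℕ} (hd : d ∈ l) (t t' : ℝ) (z : ℕ → ℝ) :
    mn l (fun z => I ν (GG F L f (ad d t z) * GG F L f (ad d t' z))) z = rho F L f d l (t' - t) := by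
  rw [← rho_eq hs d (t' - t) z]
  have h := mn_ad_mem (ψ := fun z => I ν (GG F L f z * GG F L f (ad d (t' - t) z)))
    (ua_pair hum hf AffI.id (affI_ad d _)) hl hd t z
  rw [← h]
  have e : (fun z => I ν (GG F L f (ad d t z) * GG F L f (ad d t' z))) =
      fun z : ℕ → ℝ => I ν (GG F L f (Function.update z d (z d + t)) *
        GG F L f (ad d (t' - t) (Function.update z d (z d + t)))) := by
    funext z
    have e1 : Function.update z d (z d + t) = ad d t z := rfl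
    rw [e1, ad_ad, sub_add_cancel]
  rw [e]

lemma rho_neg (hum : ∀ ψ, Adm F ψ → UA ψ) (hf : ∀ j, F.Good (f j)) {l : List ℕ} (hl : l.Nodup)
    (hs : ∀ j, ∀ d, d ∉ l → L j d = 0) {d : ℕ} (hd : d ∈ l) (t : ℝ) :
    rho F L f d l (-t) = rho F L f d l t := by
  have h := rho_pair hum hf hl hs hd t 0 0
  rw [zero_sub] at h
  rw [← h, ← rho_eq hs d t 0]
  have e : (fun z => I ν (GG F L f (ad d t z) * GG F L f (ad d 0 z))) =
      fun z => I ν (GG F L f z * GG F L f (ad d t z)) := by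
    funext z
    rw [ad_zero, mul_comm]
  rw [e]

lemma abs_rho_le (hum : ∀ ψ, Adm F ψ → UA ψ) (hf : ∀ j, F.Good (f j)) {l : List ℕ} (hl : l.Nodup)
    (d : ℕ) (t : ℝ) : |rho F L f d l t| ≤ 1 :=
  abs_mn_le (ua_pair hum hf AffI.id (affI_ad d _)) (fun _ => abs_I_pair_le hf _ _) hl 0

lemma rho_unif (hum : ∀ ψ, Adm F ψ → UA ψ) (hf : ∀ j, F.Good (f j)) {l : List ℕ} (hl : l.Nodup)
    (d : ℕ) (ε : ℝ) (hε : 0 < ε) :
    ∃ δ : ℝ, 0 < δ ∧ ∀ a a' : ℝ, |a - a'| ≤ δ → |rho F L f d l a - rho F L f d l a'| ≤ ε := by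
  obtain ⟨δ, hδ, H⟩ := GG_unif F L f hf d ε hε
  refine ⟨δ, hδ, fun a a' ha => ?_⟩
  unfold rho
  refine mn_close (ua_pair hum hf AffI.id (affI_ad d _)) (ua_pair hum hf AffI.id (affI_ad d _))
    (fun z => ?_) hl 0
  refine (abs_I_mul_sub_le (GG_bdd hf z)).trans ?_
  have h := H (ad d a' z) (a - a') ha
  rwa [ad_ad, sub_add_cancel] at h

/-- the uniform mean of `rho` -/
lemma rho_mean (hum : ∀ ψ, Adm F ψ → UA ψ) (hf : ∀ j, F.Good (f j)) {l : List ℕ} (hl : l.Nodup)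
    (hs : ∀ j, ∀ d, d ∉ l → L j d = 0) (d : ℕ) {c : ℕ} (hc : c ∉ l) :
    ∃ m : ℝ, ∀ ε : ℝ, 0 < ε → ∃ L' : ℕ, ∀ k ≥ L', ∀ K ≥ L', ∀ x : ℝ,
      |av (range (K * 2 ^ k)) (fun i => rho F L f d l (x + (i : ℝ) / 2 ^ k)) - m| ≤ ε := by
  have hU : UA (mn l (fun z => I ν (GG F L f z * GG F L f (ad d (z c) z)))) :=
    (ua_pair hum hf AffI.id (affI_adc' d c)).mn hl
  have e : mn l (fun z => I ν (GG F L f z * GG F L f (ad d (z c) z))) =
      fun z => rho F L f d l (z c) := by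
    funext z
    rw [← rho_eq hs d (z c) z]
    refine mn_congr_at (fun z' hz' => ?_)
    rw [hz' c hc]
  rw [e] at hU
  obtain ⟨m, hm⟩ := hU [c] (List.nodup_singleton c) 0
  refine ⟨m, fun ε hε => ?_⟩
  obtain ⟨L', hL'⟩ := hm ε hε
  refine ⟨L', fun k hk K hK x => ?_⟩
  have h := hL' (fun _ => k) (fun _ => K) (fun _ _ => hk) (fun _ _ => hK) (Function.update 0 c x)
    (fun e he => Function.update_of_ne (by simpa using he) _ _)
  rw [AvL_cons, AvL_nil] at h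
  unfold A1 at h
  have e2 : (fun i : ℕ => rho F L f d l (Function.update (Function.update (0 : ℕ → ℝ) c x) c
      (Function.update (0 : ℕ → ℝ) c x c + (i : ℝ) / 2 ^ k) c)) =
      fun i : ℕ => rho F L f d l (x + (i : ℝ) / 2 ^ k) := by
    funext i
    rw [Function.update_self, Function.update_self]
  rw [e2] at h
  exact h

/-- a function of one coordinate whose grid averages converge uniformly -/
lemma umat_of_grid {φ : ℝ → ℝ} {m : ℝ}
    (h : ∀ ε : ℝ, 0 < ε → ∃ L' : ℕ, ∀ k ≥ L', ∀ K ≥ L', ∀ x : ℝ,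
      |av (range (K * 2 ^ k)) (fun i => φ (x + (i : ℝ) / 2 ^ k)) - m| ≤ ε) (c : ℕ) (z : ℕ → ℝ) :
    UMat [c] (fun z => φ (z c)) z m := by
  intro ε hε
  obtain ⟨L', hL'⟩ := h ε hε
  refine ⟨L', fun k K hk hK z' _ => ?_⟩
  have hk' : L' ≤ k c := hk c (List.mem_singleton.2 rfl)
  have hK' : L' ≤ K c := hK c (List.mem_singleton.2 rfl)
  have h1 := hL' (k c) hk' (K c) hK' (z' c)
  rw [AvL_cons, AvL_nil]
  unfold A1
  have e2 : (fun i : ℕ => φ (Function.update z' c (z' c + (i : ℝ) / 2 ^ k c) c)) =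
      fun i : ℕ => φ (z' c + (i : ℝ) / 2 ^ k c) := by
    funext i
    rw [Function.update_self]
  rw [e2]
  exact h1

lemma umat_rho (hum : ∀ ψ, Adm F ψ → UA ψ) (hf : ∀ j, F.Good (f j)) {l : List ℕ} (hl : l.Nodup)
    (hs : ∀ j, ∀ d, d ∉ l → L j d = 0) {d : ℕ} (hd : d ∈ l) {m : ℝ}
    (hm : ∀ ε : ℝ, 0 < ε → ∃ L' : ℕ, ∀ k ≥ L', ∀ K ≥ L', ∀ x : ℝ,
      |av (range (K * 2 ^ k)) (fun i => rho F L f d l (x + (i : ℝ) / 2 ^ k)) - m| ≤ ε)
    {s : ℤ} (h1 : s = 1 ∨ s = -1) (a : ℝ) (c : ℕ) (z : ℕ → ℝ) :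
    UMat [c] (fun z => rho F L f d l (s * z c + a)) z m := by
  refine umat_of_grid (φ := fun t => rho F L f d l (s * t + a)) (fun ε hε => ?_) c z
  obtain ⟨L', hL'⟩ := hm ε hε
  refine ⟨L', fun k hk K hK x => ?_⟩
  rcases h1 with rfl | rfl
  · have h := hL' k hk K hK (x + a)
    have e : (fun i : ℕ => rho F L f d l (((1 : ℤ) : ℝ) * (x + (i : ℝ) / 2 ^ k) + a)) =
        fun i : ℕ => rho F L f d l (x + a + (i : ℝ) / 2 ^ k) := by
      funext i
      congr 1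
      push_cast
      ring
    rw [e]
    exact h
  · have h := hL' k hk K hK (x - a)
    have e : (fun i : ℕ => rho F L f d l (((-1 : ℤ) : ℝ) * (x + (i : ℝ) / 2 ^ k) + a)) =
        fun i : ℕ => rho F L f d l (x - a + (i : ℝ) / 2 ^ k) := by
      funext i
      rw [← rho_neg hum hf hl hs hd (x - a + (i : ℝ) / 2 ^ k)]
      congr 1
      push_cast
      ring
    rw [e]
    exact h

/-- mean over one more coordinate -/
lemma mn_cons_rho (hum : ∀ ψ, Adm F ψ → UA ψ) (hf : ∀ j, F.Good (f j)) {l : List ℕ} (hl : l.Nodup)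
    (hs : ∀ j, ∀ d, d ∉ l → L j d = 0) {d : ℕ} (hd : d ∈ l) {m : ℝ}
    (hm : ∀ ε : ℝ, 0 < ε → ∃ L' : ℕ, ∀ k ≥ L', ∀ K ≥ L', ∀ x : ℝ,
      |av (range (K * 2 ^ k)) (fun i => rho F L f d l (x + (i : ℝ) / 2 ^ k)) - m| ≤ ε)
    {s : ℤ} (h1 : s = 1 ∨ s = -1) (a : ℝ) {c : ℕ} (hc : c ∉ l) (z : ℕ → ℝ) :
    mn (c :: l) (fun z => I ν (GG F L f z * GG F L f (ad d (s * z c + a) z))) z = m := by
  rw [mn_cons (ua_pair hum hf AffI.id (affI_adc d c s a)) (List.nodup_cons.2 ⟨hc, hl⟩)]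
  have e : mn l (fun z => I ν (GG F L f z * GG F L f (ad d (s * z c + a) z))) =
      fun z => rho F L f d l (s * z c + a) := by
    funext z
    rw [← rho_eq hs d (s * z c + a) z]
    refine mn_congr_at (fun z' hz' => ?_)
    rw [hz' c hc]
  rw [e]
  exact mn_eq (umat_rho hum hf hl hs hd hm h1 a c z)

/-- shear in the coordinate `d` by an affine function of the coordinate `c` -/
lemma mn_shear_c {ψ : (ℕ → ℝ) → ℝ} {c d : ℕ} (hcd : c ≠ d) (s a : ℝ) (h : UA ψ)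
    (h' : UA (fun z => ψ (ad d (s * z c + a) z))) {l : List ℕ} (hl : l.Nodup) (hd : d ∈ l)
    (z : ℕ → ℝ) : mn l (fun z => ψ (ad d (s * z c + a) z)) z = mn l ψ z := by
  refine mn_shr (a := fun z => s * z c + a) h h' (fun z x => ?_) hl hd z
  show s * Function.update z d x c + a = s * z c + a
  rw [Function.update_of_ne hcd]

theorem ideal_b_of (hum : ∀ ψ, Adm F ψ → UA ψ) (hf : ∀ j, F.Good (f j)) {l : List ℕ} (hl : l.Nodup)
    (h1 : 1 ∈ l) {c : ℕ} (hc : c ∉ l) (hs : ∀ j, ∀ d, d ∉ l → L j d = 0) :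
    ∃ (ρ : ℝ → ℝ) (m : ℝ), (∀ a, |ρ a| ≤ 1) ∧
      (∀ ε : ℝ, 0 < ε → ∃ δ : ℝ, 0 < δ ∧ ∀ a a' : ℝ, |a - a'| ≤ δ → |ρ a - ρ a'| ≤ ε) ∧
      (∀ ε : ℝ, 0 < ε → ∃ L' : ℕ, ∀ k ≥ L', ∀ K ≥ L', ∀ x : ℝ,
        |av (range (K * 2 ^ k)) (fun i => ρ (x + (i : ℝ) / 2 ^ k)) - m| ≤ ε) ∧
      ∀ (a : ℝ) (z : ℕ → ℝ), mn (c :: l) (fun z => I ν ((GG F L f z - GG F L f (ad 1 (z c) z)) *
        (GG F L f (ad 1 a z) - GG F L f (ad 1 (z c) (ad 1 a z))))) z = 2 * (ρ a - m) := by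
  obtain ⟨m, hm⟩ := rho_mean hum hf hl hs 1 hc
  refine ⟨rho F L f 1 l, m, abs_rho_le hum hf hl 1, rho_unif hum hf hl 1, hm, fun a z => ?_⟩
  have hc1 : c ≠ 1 := by rintro rfl; exact hc h1
  have hn : (c :: l).Nodup := List.nodup_cons.2 ⟨hc, hl⟩
  have h1' : 1 ∈ c :: l := List.mem_cons_of_mem _ h1
  have hA : ∀ t : ℝ, AffI (ad 1 t) := affI_ad 1
  have hC : ∀ (s : ℤ) (t : ℝ), AffI (fun z => ad 1 (s * z c + t) z) := affI_adc 1 c
  -- the four terms
  have u1 := ua_pair hum (L := L) hf AffI.id (hA a)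
  have u2 := ua_pair hum (L := L) hf AffI.id (hC 1 a)
  have u3 := ua_pair hum (L := L) hf (hC 1 0) (hA a)
  have u4 := ua_pair hum (L := L) hf (hC 1 0) (hC 1 a)
  have u3' := ua_pair hum (L := L) hf AffI.id (hC (-1) a)
  -- first term
  have m1 : mn (c :: l) (fun z => I ν (GG F L f z * GG F L f (ad 1 a z))) z = rho F L f 1 l a := by
    rw [mn_drop u1 ?_ hn, rho_eq hs]
    intro z x
    beta_reduce
    rw [GG_congr F L f hs (z := Function.update z c x) (z' := z),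
      GG_congr F L f hs (z := ad 1 a (Function.update z c x)) (z' := ad 1 a z)]
    · intro e he
      have hec : e ≠ c := by rintro rfl; exact hc he
      by_cases h : e = 1
      · subst h; rw [ad_self, ad_self, Function.update_of_ne hec]
      · rw [ad_ne h, ad_ne h, Function.update_of_ne hec]
    · intro e he
      have hec : e ≠ c := by rintro rfl; exact hc he
      rw [Function.update_of_ne hec]
  have m2 := mn_cons_rho hum hf hl hs h1 hm (Or.inl rfl) a hc z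
  have m3 : mn (c :: l) (fun z => I ν (GG F L f (ad 1 (((1 : ℤ) : ℝ) * z c + 0) z) *
      GG F L f (ad 1 a z))) z = m := by
    rw [← mn_cons_rho hum hf hl hs h1 hm (Or.inr rfl) a hc z]
    have h := mn_shear_c (ψ := fun z => I ν (GG F L f z * GG F L f (ad 1 (((-1 : ℤ) : ℝ) * z c + a) z)))
      hc1 ((1 : ℤ) : ℝ) 0 u3' (by
        have e : (fun z : ℕ → ℝ => I ν (GG F L f (ad 1 (((1 : ℤ) : ℝ) * z c + 0) z) *
            GG F L f (ad 1 (((-1 : ℤ) : ℝ) * (ad 1 (((1 : ℤ) : ℝ) * z c + 0) z) c + a)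
              (ad 1 (((1 : ℤ) : ℝ) * z c + 0) z)))) =
            fun z => I ν (GG F L f (ad 1 (((1 : ℤ) : ℝ) * z c + 0) z) * GG F L f (ad 1 a z)) := by
          funext z
          rw [ad_ne hc1, ad_ad]
          congr 4
          push_cast
          ring
        rw [e]
        exact u3) hn h1' z
    rw [← h]
    congr 1
    funext z
    rw [ad_ne hc1, ad_ad]
    congr 4
    push_cast
    ring
  have m4 : mn (c :: l) (fun z => I ν (GG F L f (ad 1 (((1 : ℤ) : ℝ) * z c + 0) z) *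
      GG F L f (ad 1 (((1 : ℤ) : ℝ) * z c + a) z))) z = rho F L f 1 l a := by
    rw [← m1]
    have e : (fun z : ℕ → ℝ => I ν (GG F L f (ad 1 (((1 : ℤ) : ℝ) * z c + 0) z) *
            GG F L f (ad 1 (((1 : ℤ) : ℝ) * z c + a) z))) =
            fun z => I ν (GG F L f (ad 1 (((1 : ℤ) : ℝ) * z c + 0) z) *
              GG F L f (ad 1 a (ad 1 (((1 : ℤ) : ℝ) * z c + 0) z))) := by
      funext z
      rw [ad_ad]
      congr 4
      ring
    rw [e] at u4 ⊢
    exact mn_shear_c (ψ := fun z => I ν (GG F L f z * GG F L f (ad 1 a z)))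
      hc1 ((1 : ℤ) : ℝ) 0 u1 u4 hn h1' z
  have e : (fun z : ℕ → ℝ => I ν ((GG F L f z - GG F L f (ad 1 (z c) z)) *
        (GG F L f (ad 1 a z) - GG F L f (ad 1 (z c) (ad 1 a z))))) =
      fun z => ((I ν (GG F L f z * GG F L f (ad 1 a z)) -
        I ν (GG F L f z * GG F L f (ad 1 (((1 : ℤ) : ℝ) * z c + a) z))) -
        I ν (GG F L f (ad 1 (((1 : ℤ) : ℝ) * z c + 0) z) * GG F L f (ad 1 a z))) +
        I ν (GG F L f (ad 1 (((1 : ℤ) : ℝ) * z c + 0) z) *
          GG F L f (ad 1 (((1 : ℤ) : ℝ) * z c + a) z)) := by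
    funext z
    rw [ad_ad, Int.cast_one, one_mul, add_zero, sub_mul, mul_sub, mul_sub, map_sub, map_sub, map_sub]
    ring
  rw [e]
  rw [mn_add ((u1.sub u2).sub u3) u4 hn, mn_sub (u1.sub u2) u3 hn, mn_sub u1 u2 hn, m1, m2, m3, m4]
  ring

/-! ### decay -/

/-- `mn l` of the correlation of `G z` and `G (ad 0 t (gk k x z))` -/
noncomputable def cor (F : Flow ν) {ι : Type*} [Fintype ι] (L : ι → (ℕ →₀ ℤ)) (f : ι → BM Y)
    (l : List ℕ) (k : ℕ) (x t : ℝ) (z : ℕ → ℝ) : ℝ :=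
  mn l (fun z => I ν (GG F L f z * GG F L f (ad 0 t (gk k x z)))) z

lemma cor_near (hum : ∀ ψ, Adm F ψ → UA ψ) (hf : ∀ j, F.Good (f j)) {l : List ℕ} (hl : l.Nodup)
    (h1 : 1 ∈ l) {ε δ : ℝ}
    (H : ∀ (z : ℕ → ℝ) (t : ℝ), |t| ≤ δ → I ν (babs (GG F L f (ad 1 t z) - GG F L f z)) ≤ ε)
    (k : ℕ) (x β : ℝ) (hβ : |β| ≤ δ) (z : ℕ → ℝ) :
    |cor F L f l k x 0 z - cor F L f l k x (k * β) z| ≤ 2 * ε := by
  unfold cor
  have hg : AffI (fun z => ad 0 0 (gk k x z)) := (affI_ad 0 0).comp (affI_gk k x)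
  have hg' : AffI (fun z => ad 0 (k * β) (gk k x z)) := (affI_ad 0 _).comp (affI_gk k x)
  have u1 := ua_pair hum (L := L) hf AffI.id hg
  have u2 := ua_pair hum (L := L) hf AffI.id hg'
  have e1 := mn_ad_mem u1 hl h1 β z
  rw [← e1]
  refine mn_close (u1.ad 1 β) u2 (fun z => ?_) hl z
  have e2 : Function.update z 1 (z 1 + β) = ad 1 β z := rfl
  rw [e2, ad_zero, gk_ad1]
  have a1 := abs_I_mul_sub_le (ν := ν) (B := GG F L f (ad 1 β z))
    (A := GG F L f (ad 1 β (ad 0 (k * β) (gk k x z)))) (A' := GG F L f (ad 0 (k * β) (gk k x z)))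
    (GG_bdd hf _)
  have a2 := abs_I_mul_sub_le (ν := ν) (B := GG F L f (ad 0 (k * β) (gk k x z)))
    (A := GG F L f (ad 1 β z)) (A' := GG F L f z) (GG_bdd hf _)
  rw [mul_comm, mul_comm (GG F L f (ad 0 (k * β) (gk k x z))) (GG F L f z)] at a2
  have b1 := H (ad 0 (k * β) (gk k x z)) β hβ
  have b2 := H z β hβ
  have := abs_sub_le (I ν (GG F L f (ad 1 β z) * GG F L f (ad 1 β (ad 0 (k * β) (gk k x z)))))
    (I ν (GG F L f (ad 1 β z) * GG F L f (ad 0 (k * β) (gk k x z))))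
    (I ν (GG F L f z * GG F L f (ad 0 (k * β) (gk k x z))))
  linarith

/-- invariance of the correlations under `gk` -/
lemma cor_inv (hum : ∀ ψ, Adm F ψ → UA ψ) (hf : ∀ j, F.Good (f j)) {l : List ℕ} (hl : l.Nodup)
    (h0 : 0 ∈ l) (h1 : 1 ∈ l) (hs : ∀ j, ∀ d, d ∉ l → L j d = 0) (k : ℕ) (x t t' : ℝ)
    (z : ℕ → ℝ) :
    mn l (fun z => I ν (GG F L f (ad 0 t (gk k x z)) * GG F L f (ad 0 t' (gk k x z)))) z =
      rho F L f 0 l (t' - t) := by
  rw [← rho_pair hum hf hl hs h0 t t' z]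
  have u := ua_pair hum (L := L) hf (affI_ad 0 t) (affI_ad 0 t')
  have v : UA (fun z => I ν (GG F L f (ad 0 t (ad 1 (2 * k * x) z)) *
      GG F L f (ad 0 t' (ad 1 (2 * k * x) z)))) :=
    ua_pair hum (L := L) hf ((affI_ad 0 t).comp (affI_ad 1 _)) ((affI_ad 0 t').comp (affI_ad 1 _))
  have hA : AffI (fun z : ℕ → ℝ => ad 0 ((k : ℝ) * z 1 + k ^ 2 * x) z) := by
    have := affI_adc 0 1 k (k ^ 2 * x)
    simpa using this
  have w : UA (fun z => I ν (GG F L f (ad 0 t (gk k x z)) * GG F L f (ad 0 t' (gk k x z)))) :=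
    ua_pair hum (L := L) hf ((affI_ad 0 t).comp (affI_gk k x)) ((affI_ad 0 t').comp (affI_gk k x))
  have s1 := mn_ad_mem u hl h1 (2 * k * x) z
  rw [← s1]
  have e : (fun z => I ν (GG F L f (ad 0 t (gk k x z)) * GG F L f (ad 0 t' (gk k x z)))) =
      fun z : ℕ → ℝ => (fun z => I ν (GG F L f (ad 0 t (ad 1 (2 * k * x) z)) *
      GG F L f (ad 0 t' (ad 1 (2 * k * x) z)))) (ad 0 ((k : ℝ) * z 1 + k ^ 2 * x) z) := by
    funext z
    beta_reduce
    rw [gk_eq]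
  rw [e] at w ⊢
  exact mn_shear_c one_ne_zero (k : ℝ) (k ^ 2 * x) v w hl h0 z

lemma cor_diff (hum : ∀ ψ, Adm F ψ → UA ψ) (hf : ∀ j, F.Good (f j)) {l : List ℕ} (hl : l.Nodup)
    (h0 : 0 ∈ l) (h1 : 1 ∈ l) (hs : ∀ j, ∀ d, d ∉ l → L j d = 0) {κ κ' : Type*} (S : Finset κ)
    (S' : Finset κ') (t : κ → ℝ) (t' : κ' → ℝ) (k : ℕ) (x : ℝ) (z : ℕ → ℝ) :
    (av S (fun i => cor F L f l k x (t i) z) - av S' (fun j => cor F L f l k x (t' j) z)) ^ 2 ≤
      av S (fun i => av S (fun i' => rho F L f 0 l (t i' - t i))) -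
      2 * av S (fun i => av S' (fun j => rho F L f 0 l (t' j - t i))) +
      av S' (fun j => av S' (fun j' => rho F L f 0 l (t' j' - t' j))) := by
  have hg : ∀ s : ℝ, AffI (fun z => ad 0 s (gk k x z)) := fun s => (affI_ad 0 s).comp (affI_gk k x)
  have u1 : ∀ s : ℝ, UA (fun z => I ν (GG F L f z * GG F L f (ad 0 s (gk k x z)))) :=
    fun s => ua_pair hum (L := L) hf AffI.id (hg s)
  have u2 : ∀ s s' : ℝ, UA (fun z => I ν (GG F L f (ad 0 s (gk k x z)) *
      GG F L f (ad 0 s' (gk k x z)))) := fun s s' => ua_pair hum (L := L) hf (hg s) (hg s')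
  have e1 : av S (fun i => cor F L f l k x (t i) z) - av S' (fun j => cor F L f l k x (t' j) z) =
      mn l (fun z => I ν (GG F L f z * (av S (fun i => GG F L f (ad 0 (t i) (gk k x z))) -
        av S' (fun j => GG F L f (ad 0 (t' j) (gk k x z)))))) z := by
    have e : (fun z => I ν (GG F L f z * (av S (fun i => GG F L f (ad 0 (t i) (gk k x z))) -
        av S' (fun j => GG F L f (ad 0 (t' j) (gk k x z)))))) =
        fun z => av S (fun i => I ν (GG F L f z * GG F L f (ad 0 (t i) (gk k x z)))) -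
          av S' (fun j => I ν (GG F L f z * GG F L f (ad 0 (t' j) (gk k x z)))) := by
      funext z
      rw [mul_sub, map_sub, I_mul_av, I_mul_av]
    rw [e, mn_sub (UA.av S (fun i _ => u1 _)) (UA.av S' (fun i _ => u1 _)) hl,
      mn_av S (fun i _ => u1 _) hl, mn_av S' (fun i _ => u1 _) hl]
    rfl
  have e2 : mn l (fun z => I ν ((av S (fun i => GG F L f (ad 0 (t i) (gk k x z))) -
        av S' (fun j => GG F L f (ad 0 (t' j) (gk k x z)))) ^ 2)) z =
      av S (fun i => av S (fun i' => rho F L f 0 l (t i' - t i))) -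
      2 * av S (fun i => av S' (fun j => rho F L f 0 l (t' j - t i))) +
      av S' (fun j => av S' (fun j' => rho F L f 0 l (t' j' - t' j))) := by
    have e : (fun z => I ν ((av S (fun i => GG F L f (ad 0 (t i) (gk k x z))) -
        av S' (fun j => GG F L f (ad 0 (t' j) (gk k x z)))) ^ 2)) = fun z =>
        (av S (fun i => av S (fun i' => I ν (GG F L f (ad 0 (t i) (gk k x z)) *
          GG F L f (ad 0 (t i') (gk k x z))))) -
        2 * av S (fun i => av S' (fun j => I ν (GG F L f (ad 0 (t i) (gk k x z)) *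
          GG F L f (ad 0 (t' j) (gk k x z)))))) +
        av S' (fun j => av S' (fun j' => I ν (GG F L f (ad 0 (t' j) (gk k x z)) *
          GG F L f (ad 0 (t' j') (gk k x z))))) := by
      funext z
      rw [I_sq_av_sub]
    have v1 := UA.av S (ψ := fun i z => av S (fun i' => I ν (GG F L f (ad 0 (t i) (gk k x z)) *
          GG F L f (ad 0 (t i') (gk k x z))))) (fun i _ => UA.av S (fun i' _ => u2 _ _))
    have v2 := UA.av S (ψ := fun i z => av S' (fun j => I ν (GG F L f (ad 0 (t i) (gk k x z)) *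
          GG F L f (ad 0 (t' j) (gk k x z))))) (fun i _ => UA.av S' (fun j _ => u2 _ _))
    have v3 := UA.av S' (ψ := fun j z => av S' (fun j' => I ν (GG F L f (ad 0 (t' j) (gk k x z)) *
          GG F L f (ad 0 (t' j') (gk k x z))))) (fun i _ => UA.av S' (fun j _ => u2 _ _))
    rw [e, mn_add (v1.sub (v2.smul 2)) v3 hl, mn_sub v1 (v2.smul 2) hl, mn_smul 2 v2 hl,
      mn_av S (fun i _ => UA.av S (fun i' _ => u2 _ _)) hl,
      mn_av S (fun i _ => UA.av S' (fun i' _ => u2 _ _)) hl,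
      mn_av S' (fun i _ => UA.av S' (fun i' _ => u2 _ _)) hl]
    congr 1
    · congr 1
      · refine av_congr (fun i _ => ?_)
        rw [mn_av S (fun i' _ => u2 _ _) hl]
        exact av_congr (fun i' _ => cor_inv hum hf hl h0 h1 hs k x _ _ z)
      · congr 1
        refine av_congr (fun i _ => ?_)
        rw [mn_av S' (fun i' _ => u2 _ _) hl]
        exact av_congr (fun i' _ => cor_inv hum hf hl h0 h1 hs k x _ _ z)
    · refine av_congr (fun i _ => ?_)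
      rw [mn_av S' (fun i' _ => u2 _ _) hl]
      exact av_congr (fun i' _ => cor_inv hum hf hl h0 h1 hs k x _ _ z)
  rw [e1, ← e2]
  refine mn_sq_le ?_ ?_ (fun z => I_mul_sq_le (GG_bdd hf z)) hl z
  · have e : (fun z => I ν (GG F L f z * (av S (fun i => GG F L f (ad 0 (t i) (gk k x z))) -
        av S' (fun j => GG F L f (ad 0 (t' j) (gk k x z)))))) =
        fun z => av S (fun i => I ν (GG F L f z * GG F L f (ad 0 (t i) (gk k x z)))) -
          av S' (fun j => I ν (GG F L f z * GG F L f (ad 0 (t' j) (gk k x z)))) := by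
      funext z
      rw [mul_sub, map_sub, I_mul_av, I_mul_av]
    rw [e]
    exact (UA.av S (fun i _ => u1 _)).sub (UA.av S' (fun i _ => u1 _))
  · have e : (fun z => I ν ((av S (fun i => GG F L f (ad 0 (t i) (gk k x z))) -
        av S' (fun j => GG F L f (ad 0 (t' j) (gk k x z)))) ^ 2)) = fun z =>
        (av S (fun i => av S (fun i' => I ν (GG F L f (ad 0 (t i) (gk k x z)) *
          GG F L f (ad 0 (t i') (gk k x z))))) -
        2 * av S (fun i => av S' (fun j => I ν (GG F L f (ad 0 (t i) (gk k x z)) *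
          GG F L f (ad 0 (t' j) (gk k x z)))))) +
        av S' (fun j => av S' (fun j' => I ν (GG F L f (ad 0 (t' j) (gk k x z)) *
          GG F L f (ad 0 (t' j') (gk k x z))))) := by
      funext z
      rw [I_sq_av_sub]
    rw [e]
    have v1 := UA.av S (ψ := fun i z => av S (fun i' => I ν (GG F L f (ad 0 (t i) (gk k x z)) *
          GG F L f (ad 0 (t i') (gk k x z))))) (fun i _ => UA.av S (fun i' _ => u2 _ _))
    have v2 := UA.av S (ψ := fun i z => av S' (fun j => I ν (GG F L f (ad 0 (t i) (gk k x z)) *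
          GG F L f (ad 0 (t' j) (gk k x z))))) (fun i _ => UA.av S' (fun j _ => u2 _ _))
    have v3 := UA.av S' (ψ := fun j z => av S' (fun j' => I ν (GG F L f (ad 0 (t' j) (gk k x z)) *
          GG F L f (ad 0 (t' j') (gk k x z))))) (fun i _ => UA.av S' (fun j _ => u2 _ _))
    exact (v1.sub (v2.smul 2)).add v3

lemma grid_rho (hum : ∀ ψ, Adm F ψ → UA ψ) (hf : ∀ j, F.Good (f j)) {l : List ℕ} (hl : l.Nodup)
    (hs : ∀ j, ∀ d, d ∉ l → L j d = 0) {d : ℕ} (hd : d ∈ l) {m : ℝ}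
    (hm : ∀ ε : ℝ, 0 < ε → ∃ L' : ℕ, ∀ k ≥ L', ∀ K ≥ L', ∀ x : ℝ,
      |av (range (K * 2 ^ k)) (fun i => rho F L f d l (x + (i : ℝ) / 2 ^ k)) - m| ≤ ε)
    {s : ℤ} (h1 : s = 1 ∨ s = -1) (ε : ℝ) (hε : 0 < ε) :
    ∃ L' : ℕ, ∀ k ≥ L', ∀ K ≥ L', ∀ x a : ℝ,
      |av (range (K * 2 ^ k)) (fun i => rho F L f d l (s * (x + (i : ℝ) / 2 ^ k) - a)) - m| ≤ ε := by
  obtain ⟨L', hL'⟩ := hm ε hε
  refine ⟨L', fun k hk K hK x a => ?_⟩
  rcases h1 with rfl | rfl
  · have h := hL' k hk K hK (x - a)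
    have e : (fun i : ℕ => rho F L f d l (((1 : ℤ) : ℝ) * (x + (i : ℝ) / 2 ^ k) - a)) =
        fun i : ℕ => rho F L f d l (x - a + (i : ℝ) / 2 ^ k) := by
      funext i
      congr 1
      push_cast
      ring
    rw [e]
    exact h
  · have h := hL' k hk K hK (x + a)
    have e : (fun i : ℕ => rho F L f d l (((-1 : ℤ) : ℝ) * (x + (i : ℝ) / 2 ^ k) - a)) =
        fun i : ℕ => rho F L f d l (x + a + (i : ℝ) / 2 ^ k) := by
      funext i
      rw [← rho_neg hum hf hl hs hd (x + a + (i : ℝ) / 2 ^ k)]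
      congr 1
      push_cast
      ring
    rw [e]
    exact h

lemma abs_av_sub_le {κ : Type*} {S : Finset κ} (hS : S.Nonempty) {X : κ → ℝ} {m η : ℝ}
    (h : ∀ i ∈ S, |X i - m| ≤ η) : |av S X - m| ≤ η := by
  have e : av S X - m = av S (fun i => X i - m) := by rw [av_sub, av_const hS]
  rw [e]
  exact abs_av_le hS h

omit [IsProbabilityMeasure ν] in
lemma ad_congr {l : List ℕ} {z z' : ℕ → ℝ} (h : ∀ d ∈ l, z d = z' d) (d : ℕ) (t : ℝ) :
    ∀ e ∈ l, ad d t z e = ad d t z' e := by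
  intro e he
  by_cases hed : e = d
  · subst hed; rw [ad_self, ad_self, h e he]
  · rw [ad_ne hed, ad_ne hed, h e he]

lemma gk_congr {l : List ℕ} (h1 : 1 ∈ l) {z z' : ℕ → ℝ} (h : ∀ d ∈ l, z d = z' d)
    (k : ℕ) (x : ℝ) : ∀ e ∈ l, gk k x z e = gk k x z' e := by
  intro e he
  rw [gk_eq, gk_eq, h 1 h1]
  exact ad_congr (ad_congr h _ _) _ _ e he

lemma cor_const {l : List ℕ} (h1 : 1 ∈ l) (hs : ∀ j, ∀ d, d ∉ l → L j d = 0) (k : ℕ)
    (x t : ℝ) (z z' : ℕ → ℝ) : cor F L f l k x t z = cor F L f l k x t z' := by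
  unfold cor
  refine mn_on (fun z z' h => ?_) _ _
  rw [GG_congr F L f hs h, GG_congr F L f hs (ad_congr (gk_congr h1 h k x) 0 t)]

lemma theta_close (hum : ∀ ψ, Adm F ψ → UA ψ) (hf : ∀ j, F.Good (f j)) {l : List ℕ} (hl : l.Nodup)
    (h0 : 0 ∈ l) (h1 : 1 ∈ l) {c : ℕ} (hc : c ∉ l) (hs : ∀ j, ∀ d, d ∉ l → L j d = 0) {s : ℤ}
    (hs1 : s = 1 ∨ s = -1) (ε : ℝ) (hε : 0 < ε) :
    ∃ k0 : ℕ, ∀ k : ℕ, k0 ≤ k → ∀ x : ℝ, ∀ z : ℕ → ℝ,
      |cor F L f l k x 0 z -
        mn (c :: l) (fun z => I ν (GG F L f z * GG F L f (ad 0 (s * z c) (gk k x z)))) z| ≤ ε := by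
  obtain ⟨m, hm⟩ := rho_mean hum hf hl hs 0 hc
  obtain ⟨δ, hδ, H⟩ := GG_unif F L f hf 1 (ε / 4) (by positivity)
  obtain ⟨L1, hL1⟩ := grid_rho hum hf hl hs h0 hm hs1 ((ε / 4) ^ 2 / 4) (by positivity)
  set M := max L1 1 with hM
  obtain ⟨k0, hk0⟩ := exists_nat_ge ((M : ℝ) / δ)
  have hMpos : (0 : ℝ) < M := by
    have : 1 ≤ M := le_max_right _ _
    exact_mod_cast this
  refine ⟨k0, fun k hk x z => ?_⟩
  have hkδ : (M : ℝ) ≤ k * δ := by
    have h2 : (M : ℝ) / δ ≤ k := hk0.trans (by exact_mod_cast hk)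
    rwa [div_le_iff₀ hδ] at h2
  have hkpos : (0 : ℝ) < k := by
    by_contra hneg
    have hk0' : (k : ℝ) ≤ 0 := not_lt.1 hneg
    nlinarith
  -- the uniform mean over the coordinate c
  have hc0 : c ≠ 0 := by rintro rfl; exact hc h0
  have hc1 : c ≠ 1 := by rintro rfl; exact hc h1
  have hn : (c :: l).Nodup := List.nodup_cons.2 ⟨hc, hl⟩
  have hAff : AffI (fun z => ad 0 (s * z c) (gk k x z)) := by
    have h2 := (affI_adc 0 c s 0).comp (affI_gk k x)
    have e : (fun z => (fun z : ℕ → ℝ => ad 0 ((s : ℝ) * z c + 0) z) (gk k x z)) =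
        fun z => ad 0 (s * z c) (gk k x z) := by
      funext z
      beta_reduce
      rw [add_zero, gk_of_ne hc0 hc1]
    rwa [e] at h2
  have u := ua_pair hum (L := L) hf AffI.id hAff
  have eθ : mn l (fun z => I ν (GG F L f z * GG F L f (ad 0 (s * z c) (gk k x z)))) =
      fun z => cor F L f l k x (s * z c) 0 := by
    funext z
    rw [cor_const h1 hs k x _ 0 z]
    unfold cor
    refine mn_congr_at (fun z' hz' => ?_)
    rw [hz' c hc]
  have uθ := u.mn hl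
  rw [mn_cons u hn]
  rw [eθ] at uθ ⊢
  obtain ⟨L3, hL3⟩ := mn_spec uθ (List.nodup_singleton c) z (ε / 4) (by positivity)
  set K := max L3 M with hK
  have h3 := hL3 (fun _ => K) (fun _ => K) (fun _ _ => le_max_left _ _) (fun _ _ => le_max_left _ _)
    z (fun _ _ => rfl)
  rw [AvL_cons, AvL_nil] at h3
  unfold A1 at h3
  have e3 : (fun i : ℕ => cor F L f l k x (s * Function.update z c (z c + (i : ℝ) / 2 ^ K) c) 0) =
      fun i : ℕ => cor F L f l k x (s * (z c + (i : ℝ) / 2 ^ K)) z := by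
    funext i
    rw [Function.update_self]
    exact cor_const h1 hs k x _ _ _
  rw [e3] at h3
  -- the first family
  have hS : (range (M * 2 ^ M)).Nonempty := range_ne (le_max_right _ _)
  have hS' : (range (K * 2 ^ K)).Nonempty := range_ne ((le_max_right L1 1).trans (le_max_right L3 M))
  have h4 : |av (range (M * 2 ^ M)) (fun i => cor F L f l k x (s * (0 + (i : ℝ) / 2 ^ M)) z) -
      cor F L f l k x 0 z| ≤ 2 * (ε / 4) := by
    refine abs_av_sub_le hS (fun i hi => ?_)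
    have hi' : (i : ℝ) < M * 2 ^ M := by
      have := mem_range.1 hi
      exact_mod_cast this
    have hi2 : (i : ℝ) / 2 ^ M ≤ M := by
      rw [div_le_iff₀ (by positivity)]
      exact hi'.le
    have habs : |(s : ℝ)| = 1 := by
      rcases hs1 with rfl | rfl <;> simp
    have h5 := cor_near (L := L) (f := f) hum hf hl h1 H k x (s * (0 + (i : ℝ) / 2 ^ M) / k) (by
      rw [abs_div, abs_mul, habs, one_mul, zero_add, abs_of_nonneg (by positivity : (0 : ℝ) ≤ (i : ℝ) / 2 ^ M),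
        abs_of_pos hkpos, div_le_iff₀ hkpos]
      linarith) z
    rw [abs_sub_comm]
    rwa [mul_div_cancel₀ _ hkpos.ne'] at h5
  have h5 : |av (range (M * 2 ^ M)) (fun i => cor F L f l k x (s * (0 + (i : ℝ) / 2 ^ M)) z) -
      av (range (K * 2 ^ K)) (fun i => cor F L f l k x (s * (z c + (i : ℝ) / 2 ^ K)) z)| ≤ ε / 4 := by
    refine abs_le_of_sq_le_sq ?_ (by positivity)
    refine (cor_diff hum hf hl h0 h1 hs (range (M * 2 ^ M)) (range (K * 2 ^ K))
      (fun i => s * (0 + (i : ℝ) / 2 ^ M)) (fun i => s * (z c + (i : ℝ) / 2 ^ K)) k x z).trans ?_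
    have g1 : |av (range (M * 2 ^ M)) (fun i : ℕ => av (range (M * 2 ^ M)) (fun i' : ℕ =>
        rho F L f 0 l (s * (0 + (i' : ℝ) / 2 ^ M) - s * (0 + (i : ℝ) / 2 ^ M)))) - m| ≤ (ε / 4) ^ 2 / 4 :=
      abs_av_sub_le hS (fun i _ => hL1 M (le_max_left _ _) M (le_max_left _ _) 0 _)
    have g2 : |av (range (M * 2 ^ M)) (fun i : ℕ => av (range (K * 2 ^ K)) (fun i' : ℕ =>
        rho F L f 0 l (s * (z c + (i' : ℝ) / 2 ^ K) - s * (0 + (i : ℝ) / 2 ^ M)))) - m| ≤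
          (ε / 4) ^ 2 / 4 :=
      abs_av_sub_le hS (fun i _ => hL1 K ((le_max_left L1 1).trans (le_max_right L3 M)) K
        ((le_max_left L1 1).trans (le_max_right L3 M)) (z c) _)
    have g3 : |av (range (K * 2 ^ K)) (fun i : ℕ => av (range (K * 2 ^ K)) (fun i' : ℕ =>
        rho F L f 0 l (s * (z c + (i' : ℝ) / 2 ^ K) - s * (z c + (i : ℝ) / 2 ^ K)))) - m| ≤
          (ε / 4) ^ 2 / 4 :=
      abs_av_sub_le hS' (fun i _ => hL1 K ((le_max_left L1 1).trans (le_max_right L3 M)) K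
        ((le_max_left L1 1).trans (le_max_right L3 M)) (z c) _)
    rw [abs_le] at g1 g2 g3
    linarith [g1.2, g2.1, g3.2]
  rw [abs_le] at h3 h4 h5 ⊢
  constructor <;> linarith [h3.1, h3.2, h4.1, h4.2, h5.1, h5.2]

theorem ideal_decay_of (hum : ∀ ψ, Adm F ψ → UA ψ) (hf : ∀ j, F.Good (f j)) {l : List ℕ}
    (hl : l.Nodup) (h0 : 0 ∈ l) (h1 : 1 ∈ l) {c : ℕ} (hc : c ∉ l)
    (hs : ∀ j, ∀ d, d ∉ l → L j d = 0) (ε : ℝ) (hε : 0 < ε) :
    ∃ k0 : ℕ, ∀ k : ℕ, k0 ≤ k → ∀ x : ℝ, ∀ z : ℕ → ℝ,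
      |mn (c :: l) (fun z => I ν ((GG F L f z - GG F L f (ad 0 (z c) z)) *
        (GG F L f (gk k x z) - GG F L f (ad 0 (z c) (gk k x z))))) z| ≤ ε := by
  obtain ⟨k1, hk1⟩ := theta_close hum hf hl h0 h1 hc hs (s := 1) (Or.inl rfl) (ε / 2) (by positivity)
  obtain ⟨k2, hk2⟩ := theta_close hum hf hl h0 h1 hc hs (s := -1) (Or.inr rfl) (ε / 2)
    (by positivity)
  refine ⟨max k1 k2, fun k hk x z => ?_⟩
  have t1 := hk1 k ((le_max_left _ _).trans hk) x z
  have t2 := hk2 k ((le_max_right _ _).trans hk) x z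
  have hc0 : c ≠ 0 := by rintro rfl; exact hc h0
  have hc1 : c ≠ 1 := by rintro rfl; exact hc h1
  have hn : (c :: l).Nodup := List.nodup_cons.2 ⟨hc, hl⟩
  have h0' : 0 ∈ c :: l := List.mem_cons_of_mem _ h0
  have hC : ∀ (s : ℤ), AffI (fun z => ad 0 (s * z c) z) := fun s => by
    have := affI_adc 0 c s 0
    simpa using this
  have hCg : ∀ (s : ℤ), AffI (fun z => ad 0 (s * z c) (gk k x z)) := fun s => by
    have h2 := (hC s).comp (affI_gk k x)
    have e : (fun z => (fun z : ℕ → ℝ => ad 0 ((s : ℝ) * z c) z) (gk k x z)) =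
        fun z => ad 0 (s * z c) (gk k x z) := by
      funext z
      beta_reduce
      rw [gk_of_ne hc0 hc1]
    rwa [e] at h2
  have hg0 : AffI (fun z => ad 0 0 (gk k x z)) := (affI_ad 0 0).comp (affI_gk k x)
  have u1 := ua_pair hum (L := L) hf AffI.id hg0
  have u2 := ua_pair hum (L := L) hf AffI.id (hCg 1)
  have u3 := ua_pair hum (L := L) hf (hC 1) (affI_gk k x)
  have u4 := ua_pair hum (L := L) hf (hC 1) (hCg 1)
  have u3' := ua_pair hum (L := L) hf AffI.id (hCg (-1))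
  -- first term
  have m1 : mn (c :: l) (fun z => I ν (GG F L f z * GG F L f (ad 0 0 (gk k x z)))) z =
      cor F L f l k x 0 z := by
    rw [mn_drop u1 ?_ hn]
    · rfl
    · intro z y
      beta_reduce
      have hz : ∀ e ∈ l, Function.update z c y e = z e := by
        intro e he
        have hec : e ≠ c := by rintro rfl; exact hc he
        rw [Function.update_of_ne hec]
      rw [GG_congr F L f hs hz, GG_congr F L f hs (ad_congr (gk_congr h1 hz k x) 0 0)]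
  have m3 : mn (c :: l) (fun z => I ν (GG F L f (ad 0 (((1 : ℤ) : ℝ) * z c) z) *
      GG F L f (gk k x z))) z =
      mn (c :: l) (fun z => I ν (GG F L f z *
        GG F L f (ad 0 (((-1 : ℤ) : ℝ) * z c) (gk k x z)))) z := by
    have e : (fun z : ℕ → ℝ => I ν (GG F L f (ad 0 (((1 : ℤ) : ℝ) * z c) z) *
        GG F L f (gk k x z))) =
        fun z => (fun z => I ν (GG F L f z *
        GG F L f (ad 0 (((-1 : ℤ) : ℝ) * z c) (gk k x z)))) (ad 0 (((1 : ℤ) : ℝ) * z c + 0) z) := by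
      funext z
      beta_reduce
      rw [add_zero, ad_ne hc0, gk_ad0, ad_ad]
      have e5 : ((-1 : ℤ) : ℝ) * z c + ((1 : ℤ) : ℝ) * z c = 0 := by push_cast; ring
      rw [e5, ad_zero]
    rw [e] at u3 ⊢
    exact mn_shear_c hc0 ((1 : ℤ) : ℝ) 0 u3' u3 hn h0' z
  have m4 : mn (c :: l) (fun z => I ν (GG F L f (ad 0 (((1 : ℤ) : ℝ) * z c) z) *
      GG F L f (ad 0 (((1 : ℤ) : ℝ) * z c) (gk k x z)))) z = cor F L f l k x 0 z := by
    rw [← m1]
    have e : (fun z : ℕ → ℝ => I ν (GG F L f (ad 0 (((1 : ℤ) : ℝ) * z c) z) *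
        GG F L f (ad 0 (((1 : ℤ) : ℝ) * z c) (gk k x z)))) =
        fun z => (fun z => I ν (GG F L f z * GG F L f (ad 0 0 (gk k x z))))
          (ad 0 (((1 : ℤ) : ℝ) * z c + 0) z) := by
      funext z
      beta_reduce
      rw [add_zero, gk_ad0, ad_zero]
    rw [e] at u4 ⊢
    exact mn_shear_c hc0 ((1 : ℤ) : ℝ) 0 u1 u4 hn h0' z
  have e : (fun z : ℕ → ℝ => I ν ((GG F L f z - GG F L f (ad 0 (z c) z)) *
        (GG F L f (gk k x z) - GG F L f (ad 0 (z c) (gk k x z))))) =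
      fun z => ((I ν (GG F L f z * GG F L f (ad 0 0 (gk k x z))) -
        I ν (GG F L f z * GG F L f (ad 0 (((1 : ℤ) : ℝ) * z c) (gk k x z)))) -
        I ν (GG F L f (ad 0 (((1 : ℤ) : ℝ) * z c) z) * GG F L f (gk k x z))) +
        I ν (GG F L f (ad 0 (((1 : ℤ) : ℝ) * z c) z) *
          GG F L f (ad 0 (((1 : ℤ) : ℝ) * z c) (gk k x z))) := by
    funext z
    rw [ad_zero, Int.cast_one, one_mul, sub_mul, mul_sub, mul_sub, map_sub, map_sub, map_sub]
    ring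
  rw [e]
  rw [mn_add ((u1.sub u2).sub u3) u4 hn, mn_sub (u1.sub u2) u3 hn, mn_sub u1 u2 hn, m1, m3, m4]
  have key : ∀ A B C η : ℝ, |A - B| ≤ η / 2 → |A - C| ≤ η / 2 → |A - B - C + A| ≤ η := by
    intro A B C η h6 h7
    rw [abs_le] at h6 h7 ⊢
    constructor <;> linarith [h6.1, h6.2, h7.1, h7.2]
  exact key _ _ _ _ t1 t2

end ideal

end Pool.Agent.H63.NS
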